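import Pool.Agent.Y825.RK.Main
import Pool.Agent.Y825.RK.Hilb

/-!
# The rank-one numerical index of `L_p(μ)` for arbitrary measures

For `1 < p < ∞` the conjectured equality `n_1(L_p(μ)) = κ_p = p^(-1/p) q^(-1/q)` holds for `p = 2`
and fails for every `p ≠ 2`, for **every** measure `μ` (atomless, atomic or mixed, `σ`-finite or
not) with `dim L_p(μ) > 1` and over both scalar fields; moreover for `p ≠ 2` the gap is bounded
below by a positive constant that depends on `p` only. (The starting file `ConjectureFails` has the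
strict inequality for the sequence spaces `ℓ_p(ι)` only; the spaces `L_p[0,1]` were open.)
-/

open MeasureTheory
open scoped ENNReal

namespace Pool.Agent.Results.MP_d0ed5b_an.EveryMeasure

open Pool.Agent.Results.MP_d0ed5b_an.ConjectureFails (numRadius rankOneIndex kappa)

universe u v

/-- The conjecture `n_1(L_p(μ)) = κ_p` is true for `p = 2` and false for every `p ≠ 2` and every
measure with `dim L_p(μ) > 1`, with a gap depending on `p` only. -/
theorem result (p : ℝ≥0∞) [Fact (1 ≤ p)] (h1 : 1 < p) (htop : p ≠ ∞) :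
    (p = 2 → ∀ (𝕜 : Type u) [RCLike 𝕜] (Ω : Type v) [MeasurableSpace Ω] (μ : Measure Ω),
      1 < Module.rank 𝕜 (Lp 𝕜 p μ) → rankOneIndex 𝕜 (Lp 𝕜 p μ) = kappa p.toReal) ∧
    (p ≠ 2 → ∃ ε : ℝ, 0 < ε ∧
      ∀ (𝕜 : Type u) [RCLike 𝕜] (Ω : Type v) [MeasurableSpace Ω] (μ : Measure Ω),
        1 < Module.rank 𝕜 (Lp 𝕜 p μ) → rankOneIndex 𝕜 (Lp 𝕜 p μ) ≤ kappa p.toReal - ε) := by
  constructor
  · rintro rfl 𝕜 _ Ω _ μ hr
    have h2 : rankOneIndex 𝕜 (Lp 𝕜 2 μ) = 1 / 2 := Pool.Agent.Y825.RK.hilb hr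
    rw [h2]
    unfold kappa
    have h3 : (2 : ℝ≥0∞).toReal = 2 := rfl
    rw [h3]
    norm_num
    rw [← Real.sqrt_eq_rpow, ← mul_inv, Real.mul_self_sqrt (by norm_num)]
    norm_num
  · intro h2
    obtain ⟨ε, hε, h⟩ := Pool.Agent.Y825.RK.two_sets.{u, v} p h1 htop h2
    refine ⟨ε, hε, fun 𝕜 _ Ω _ μ hr => ?_⟩
    obtain ⟨A, B, hA, hB, hAB, hA0, hAt, hB0, hBt⟩ :=
      Pool.Agent.Y825.RK.exists_sets 𝕜 htop hr
    exact h 𝕜 Ω μ A B hA hB hAB hA0 hAt hB0 hBt

end Pool.Agent.Results.MP_d0ed5b_an.EveryMeasure
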